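import Pool.Agent.OLD.Valid
import Pool.Agent.OLD.Count

/-!
# Open locating-dominating sets of cubic graphs without 4-cycles (MP_3363dc_co)

Same notation as in `Pool.Agent.OLD`: every vertex plays two roles, as a point and as a line
(the line `l` is the set of its three neighbours), `D` is the complement of the set we construct.
-/

set_option autoImplicit false

namespace Pool.Agent.OC4

open Pool.Agent.OLD

variable {V : Type*}

/-- no 4-cycle: two lines with two common points are equal -/
def C4F (G : SimpleGraph V) : Prop :=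
  ∀ l l' x y, G.Adj l x → G.Adj l y → G.Adj l' x → G.Adj l' y → x ≠ y → l = l'

variable [Fintype V] [DecidableEq V] (G : SimpleGraph V) [DecidableRel G.Adj]

/-- largest valid sets with fewest heavy lines -/
structure Opt (D : Finset V) : Prop where
  valid : Valid G D
  max : ∀ D', Valid G D' → D'.card ≤ D.card
  min : ∀ D', Valid G D' → D'.card = D.card → hc G D ≤ hc G D'

/-- uncharged points with exactly one blocking line -/
def B1 (D : Finset V) (y : V) : Prop := S0 G D y ∧ bnum G D y = 1

/-- uncharged points with one blocking line and two empty lines -/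
def Tight (D : Finset V) (s : V) : Prop := S0 G D s ∧ bnum G D s = 1 ∧ tnum G D s = 2

/-- light lines which are the only blocking line of some point -/
def BadL (D : Finset V) (g : V) : Prop := ∃ y, B1 G D y ∧ BLine G D y g

/-- light lines which are not the only blocking line of any point -/
def GoodL (D : Finset V) (g : V) : Prop := cnt G D g = 1 ∧ ¬ BadL G D g

/-- the slots of `s`: the light lines other than the blocking line at the three points of `D`
whose removal unblocks `s` -/
def Slot (D : Finset V) (s g : V) : Prop :=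
  cnt G D g = 1 ∧ ∃ l x k, Tow G D s l x k ∧ G.Adj g x ∧ g ≠ l

/-- empty lines without charged points -/
def Z0 (D : Finset V) (z : V) : Prop := cnt G D z = 0 ∧ ∀ p, G.Adj z p → ¬ S1 G D p

open scoped Classical in
/-- number of `Z0` lines at `s` -/
noncomputable def ee (D : Finset V) (s : V) : ℕ :=
  (Finset.univ.filter fun z => G.Adj z s ∧ Z0 G D z).card

variable {G}

/-- adding one point -/
theorem valid_insert (hG : G.IsRegularOfDegree 3) (hC : C4F G) {E : Finset V} {x : V}
    (hE : Valid G E) (ha : Addable G E x) : Valid G (insert x E) := by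
  have key : ∀ {l s}, Hv G (insert x E) l s → Hv G E l s ∨
      (G.Adj l x ∧ x ≠ s ∧ ∀ w, G.Adj l w → w ≠ x → w ≠ s → w ∈ E) := by
    intro l s h
    by_cases hx : G.Adj l x ∧ x ≠ s
    · refine Or.inr ⟨hx.1, hx.2, fun w hw hwx hws => ?_⟩
      rcases Finset.mem_insert.mp (h.2 w hw hws) with h0 | h0
      · exact absurd h0 hwx
      · exact h0
    · refine Or.inl ⟨h.1, fun w hw hws => ?_⟩
      rcases Finset.mem_insert.mp (h.2 w hw hws) with h0 | h0
      · exact absurd ⟨h0 ▸ hw, h0 ▸ hws⟩ hx
      · exact h0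
  have k2 : ∀ s l l', l ≠ l' → G.Adj l s → G.Adj l x → x ≠ s →
      (∀ w, G.Adj l w → w ≠ x → w ≠ s → w ∈ E) → ¬ Hv G E l' s := by
    intro s l l' hll hls hlx hxs hw h'
    obtain ⟨y, hly, hyx, hys, -⟩ := exists_third hG hlx hls hxs.symm
    exact ha.2 l y s hlx hly hls hyx hxs.symm hys.symm (hw y hly hyx hys) l' h'
  refine ⟨?_, ?_⟩
  · intro s hs l hl
    rcases key hl with h | ⟨hlx, hxs, hw⟩
    · rcases Finset.mem_insert.mp hs with h0 | h0
      · subst h0; exact ha.1 l h
      · exact hE.none s h0 l h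
    · rcases Finset.mem_insert.mp hs with h0 | h0
      · exact hxs h0.symm
      · refine ha.1 l ⟨hlx, fun w hlw hwx => ?_⟩
        by_cases hws : w = s
        · rw [hws]; exact h0
        · exact hw w hlw hwx hws
  · intro s l l' hl hl'
    by_contra hll
    rcases key hl with h | ⟨hlx, hxs, hw⟩
    · rcases key hl' with h' | ⟨hlx', hxs', hw'⟩
      · exact hll (hE.uniq s l l' h h')
      · exact k2 s l' l (Ne.symm hll) hl'.1 hlx' hxs' hw' h
    · rcases key hl' with h' | ⟨hlx', hxs', hw'⟩
      · exact k2 s l l' hll hl.1 hlx hxs hw h'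
      · exact hll (hC l l' x s hlx hl.1 hlx' hl'.1 hxs)

theorem exists_opt (hG : G.IsRegularOfDegree 3) : ∃ D : Finset V, Opt G D := by
  classical
  let P : Finset (Finset V) := Finset.univ.filter fun D => Valid G D
  have hP : ∀ D, D ∈ P ↔ Valid G D := by
    intro D; simp [P]
  have hne : P.Nonempty := ⟨∅, (hP ∅).mpr (valid_empty hG)⟩
  obtain ⟨D0, hD0, hmax⟩ := Finset.exists_max_image P Finset.card hne
  let Q : Finset (Finset V) := P.filter fun D => D.card = D0.card
  have hQ : ∀ D, D ∈ Q ↔ D ∈ P ∧ D.card = D0.card := by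
    intro D; simp [Q]
  obtain ⟨D, hD, hmin⟩ := Finset.exists_min_image Q (fun D => hc G D) ⟨D0, (hQ D0).mpr ⟨hD0, rfl⟩⟩
  obtain ⟨hDP, hDc⟩ := (hQ D).mp hD
  exact ⟨D, (hP D).mp hDP, fun D' h1 => by rw [hDc]; exact hmax D' ((hP D').mpr h1),
    fun D' h1 h3 => hmin D' ((hQ D').mpr ⟨(hP D').mpr h1, by rw [h3, hDc]⟩)⟩

theorem isOLD_compl (hG : G.IsRegularOfDegree 3) (hC : C4F G) {D : Finset V}
    (hD : Valid G D) : IsOLD G Dᶜ := by
  have h1 : ∀ v, ∃ s ∈ Dᶜ, G.Adj v s := by
    intro v
    by_contra hcon
    push Not at hcon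
    have h3 : 0 < (G.neighborFinset v).card := by
      rw [SimpleGraph.card_neighborFinset_eq_degree, hG v]; norm_num
    obtain ⟨s, hs⟩ := Finset.card_pos.mp h3
    rw [SimpleGraph.mem_neighborFinset] at hs
    have hall : ∀ w, G.Adj v w → w ∈ D := by
      intro w hw
      by_contra hwD
      exact hcon w (by simpa using hwD) hw
    exact hD.none s (hall s hs) v ⟨hs, fun w hw _ => hall w hw⟩
  refine ⟨h1, fun u v huv heq => ?_⟩
  obtain ⟨s, hs, hus⟩ := h1 u
  have hmem : ∀ w, w ∉ D → (G.Adj u w ↔ G.Adj v w) := by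
    intro w hw
    have := Finset.ext_iff.mp heq w
    simpa [hw] using this
  have hsD : s ∉ D := by simpa using hs
  have hvs : G.Adj v s := (hmem s hsD).mp hus
  by_cases h2 : ∃ s', s' ∉ D ∧ G.Adj u s' ∧ s' ≠ s
  · obtain ⟨s', hs'D, hus', hss⟩ := h2
    have hvs' : G.Adj v s' := (hmem s' hs'D).mp hus'
    exact huv (hC u v s s' hus hus' hvs hvs' (Ne.symm hss))
  · push Not at h2
    have hu : Hv G D u s := ⟨hus, fun w hw hws => by
      by_contra hwD
      exact hws (h2 w hwD hw)⟩
    have hv : Hv G D v s := ⟨hvs, fun w hw hws => by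
      by_contra hwD
      exact hws (h2 w hwD ((hmem w hwD).mpr hw))⟩
    exact huv (hD.uniq s u v hu hv)

theorem bline_unique {D : Finset V} {x l l' : V} (h1 : bnum G D x = 1) (h : BLine G D x l)
    (h' : BLine G D x l') : l = l' := by
  classical
  unfold bnum at h1
  exact Finset.card_le_one.mp h1.le l (by simpa using h) l' (by simpa using h')

/-- an uncharged point can be added to a smaller set which destroys all its blocking lines -/
theorem S0_addable (hG : G.IsRegularOfDegree 3) {D E : Finset V} {x : V} (hx : S0 G D x)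
    (hE : E ⊆ D)
    (hb : ∀ l y z, BLine G D x l → G.Adj l y → G.Adj l z → y ∈ E → S1 G D z → ∀ l', ¬ Hv G E l' z) :
    Addable G E x := by
  have hmono : ∀ {l s}, Hv G E l s → Hv G D l s := fun h => ⟨h.1, fun w h1 h2 => hE (h.2 w h1 h2)⟩
  refine ⟨fun l h => hx.2 l (hmono h), ?_⟩
  intro l y s hlx hly hls hyx hsx hsy hy l' hl'
  have hc : cnt G D l = 1 := by
    have h1 := hx.cnt_le hG hlx
    have h2 := cnt_pos hly (hE hy)
    omega
  have hs : s ∉ D := fun hs => hsy (cnt_one_unique hc hs (hE hy) hls hly)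
  have hS : S1 G D s := ⟨hs, l', hmono hl'⟩
  exact hb l y s ⟨hlx, hx.1, hc, s, hls, hsx, hS⟩ hly hls hy hS l' hl'

/-- in an optimal set every uncharged point is blocked -/
theorem bnum_pos (hG : G.IsRegularOfDegree 3) (hC : C4F G) {D : Finset V} (hD : Opt G D) {x : V}
    (hx : S0 G D x) : 1 ≤ bnum G D x := by
  classical
  by_contra hcon
  have h0 : bnum G D x = 0 := by omega
  have hnb : ∀ l, ¬ BLine G D x l := by
    intro l hl
    unfold bnum at h0
    rw [Finset.card_eq_zero] at h0
    have : l ∈ (Finset.univ.filter fun l => BLine G D x l) := by simpa using hl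
    rw [h0] at this
    simp at this
  have ha : Addable G D x := S0_addable hG hx (Finset.Subset.refl _)
    fun l y z hl => absurd hl (hnb l)
  have hv := hD.max _ (valid_insert hG hC hD.valid ha)
  rw [Finset.card_insert_of_notMem hx.1] at hv
  omega

/-- the two other lines of a tight point are empty -/
theorem Tight.empty (hG : G.IsRegularOfDegree 3) {D : Finset V} {s b l : V} (hs : Tight G D s)
    (hb : BLine G D s b) (hl : G.Adj l s) (hlb : l ≠ b) : cnt G D l = 0 := by
  classical
  have h3 := anum_add_bnum_add_tnum hG hs.1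
  have ha : anum G D s = 0 := by
    have := hs.2.1; have := hs.2.2; omega
  by_contra hc
  have h1 := hs.1.cnt_le hG hl
  have hc1 : cnt G D l = 1 := by omega
  have hnb : ¬ BLine G D s l := fun h => hlb (bline_unique hs.2.1 h hb)
  unfold anum at ha
  rw [Finset.card_eq_zero] at ha
  have : l ∈ (Finset.univ.filter fun l => G.Adj l s ∧ cnt G D l = 1 ∧ ¬ BLine G D s l) := by
    simpa using ⟨hl, hc1, hnb⟩
  rw [ha] at this
  simp at this

/-- a point with one blocking line can be added after removing a point towards it -/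
theorem B1.addable (hG : G.IsRegularOfDegree 3) {D : Finset V} (hD : Valid G D) {s b x k : V}
    (hs : B1 G D s) (ht : Tow G D s b x k) : Addable G (D.erase x) s := by
  obtain ⟨hB, hx, hkx, hk⟩ := ht
  refine S0_addable hG hs.1 (Finset.erase_subset _ _) ?_
  intro m y z hm hmy hmz hy hz k' hk'
  have hmb : m = b := bline_unique hs.2 hm hB
  subst hmb
  have hyD : y ∈ D := Finset.mem_of_mem_erase hy
  rcases hk with rfl | ⟨z', hlz', hz's, hz'D, hH⟩
  · exact Finset.ne_of_mem_erase hy (cnt_one_unique hB.2.2.1 hyD hx hmy hkx)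
  · have hk'' : Hv G D k' z := ⟨hk'.1, fun w h1 h2 => Finset.mem_of_mem_erase (hk'.2 w h1 h2)⟩
    obtain ⟨y0, z0, hy0, hz0, hy0c, hz0c, hz0y0, hly0, hlz0, hall⟩ := hB.shape hG
    have e1 : z = z0 := by
      rcases hall z hmz with h | h | h
      · exact absurd (h ▸ hk'') (hs.1.2 k')
      · exact absurd (h ▸ hy0) hz.1
      · exact h
    have e2 : z' = z0 := by
      rcases hall z' hlz' with h | h | h
      · exact absurd h hz's
      · exact absurd (h ▸ hy0) hz'D
      · exact h
    have e3 : z' = z := e2.trans e1.symm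
    subst e3
    have hkk : k' = k := hD.uniq _ _ _ hk'' hH
    subst hkk
    exact Finset.ne_of_mem_erase (hk'.2 x hkx fun h => hz'D (h ▸ hx)) rfl

theorem Tight.b1 {D : Finset V} {s : V} (hs : Tight G D s) : B1 G D s := ⟨hs.1, hs.2.1⟩

end Pool.Agent.OC4
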