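import Pool.Agent.OC4.Base

/-!
# The exchange (one point out, two points in)
-/

set_option autoImplicit false

namespace Pool.Agent.OC4

open Pool.Agent.OLD

variable {V : Type*} [Fintype V] [DecidableEq V] {G : SimpleGraph V} [DecidableRel G.Adj]

/-- a line through `y` in `S0` different from `s` is not the blocking line of `s` -/
theorem not_mem_bline (hG : G.IsRegularOfDegree 3) {D : Finset V} {s b y : V}
    (hb : BLine G D s b) (hy : S0 G D y) (hys : y ≠ s) : ¬ G.Adj b y := by
  intro h
  obtain ⟨y0, z0, hy0, hz0, -, -, -, -, -, hall⟩ := hb.shape hG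
  rcases hall y h with h | h | h
  · exact hys h
  · exact hy.1 (h ▸ hy0)
  · obtain ⟨-, l, hl⟩ := hz0
    exact hy.2 l (h ▸ hl)

theorem exchange (hG : G.IsRegularOfDegree 3) (hC : C4F G) {D : Finset V} (hD : Opt G D)
    {s b x k y g : V} (hs : Tight G D s) (ht : Tow G D s b x k) (hy : B1 G D y)
    (hg : BLine G D y g) (hgx : G.Adj g x) (hne : g ≠ b) :
    ∃ z p, G.Adj z s ∧ G.Adj z y ∧ cnt G D z = 0 ∧ G.Adj z p ∧ S1 G D p := by
  by_contra hcon
  push Not at hcon
  have hB := ht.1
  have hxD := ht.2.1
  have hsy : y ≠ s := by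
    rintro rfl
    exact hne (bline_unique hy.2 hg hB)
  have hby : ¬ G.Adj b y := not_mem_bline hG hB hy.1 hsy
  have hsD : s ∉ D := hs.1.1
  have hyD : y ∉ D := hy.1.1
  have hE : Valid G (D.erase x) := hD.valid.mono (Finset.erase_subset _ _)
  have hE1 : Valid G (insert s (D.erase x)) :=
    valid_insert hG hC hE (hs.b1.addable hG hD.valid ht)
  have hyE1 : y ∉ insert s (D.erase x) := by
    rw [Finset.mem_insert]
    rintro (h | h)
    · exact hsy h
    · exact hyD (Finset.mem_of_mem_erase h)
  have hmono : ∀ {w}, w ∈ insert s (D.erase x) → w ≠ s → w ∈ D := by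
    intro w hw hws
    rcases Finset.mem_insert.mp hw with h | h
    · exact absurd h hws
    · exact Finset.mem_of_mem_erase h
  have hHv : ∀ {l p}, Hv G (insert s (D.erase x)) l p → ¬ G.Adj l s → Hv G D l p := by
    intro l p h hns
    exact ⟨h.1, fun w hw hwp => hmono (h.2 w hw hwp) fun h0 => hns (h0 ▸ hw)⟩
  have ha : Addable G (insert s (D.erase x)) y := by
    refine ⟨?_, ?_⟩
    · intro l hl
      by_cases hls : G.Adj l s
      · have hlb : l ≠ b := fun h => hby (h ▸ hl.1)
        have h0 := hs.empty hG hB hls hlb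
        obtain ⟨w, hlw, hwy, hws, -⟩ := exists_third hG hl.1 hls (Ne.symm hsy)
        have := cnt_pos hlw (hmono (hl.2 w hlw hwy) hws)
        omega
      · exact hy.1.2 l (hHv hl hls)
    · intro l y' p hly hly' hlp hy'y hpy hpy' hy' l' hl'
      by_cases hys' : y' = s
      · subst hys'
        have hlb : l ≠ b := fun h => hby (h ▸ hly)
        have h0 := hs.empty hG hB hly' hlb
        have hpD : p ∉ D := fun h => by
          have := cnt_pos hlp h
          omega
        by_cases hls : G.Adj l' y'
        · have hll : l' ≠ l := by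
            rintro rfl
            exact hyE1 (hl'.2 y hly (Ne.symm hpy))
          exact hll (hC l' l y' p hls hl'.1 hly' hlp (Ne.symm hpy'))
        · exact hcon l p hly' hly h0 hlp ⟨hpD, l', hHv hl' hls⟩
      · have hy'D : y' ∈ D := hmono hy' hys'
        have hy'x : y' ≠ x := by
          rcases Finset.mem_insert.mp hy' with h | h
          · exact absurd h hys'
          · exact Finset.ne_of_mem_erase h
        have hc1 : cnt G D l = 1 := by
          have h1 := hy.1.cnt_le hG hly
          have h2 := cnt_pos hly' hy'D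
          omega
        have hpD : p ∉ D := fun h => hpy' (cnt_one_unique hc1 h hy'D hlp hly')
        have hlg : l ≠ g := by
          rintro rfl
          exact hy'x (cnt_one_unique hc1 hy'D hxD hly' hgx)
        have hnS : ¬ S1 G D p := fun hS =>
          hlg (bline_unique hy.2 ⟨hly, hyD, hc1, p, hlp, hpy, hS⟩ hg)
        have hps : p ≠ s := by
          rintro rfl
          have hlb : l ≠ b := fun h => hby (h ▸ hly)
          have h0 := hs.empty hG hB hlp hlb
          omega
        by_cases hls : G.Adj l' s
        · obtain ⟨w, hlw, hwp, hws, -⟩ := exists_third hG hl'.1 hls (Ne.symm hps)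
          have hwD : w ∈ D := hmono (hl'.2 w hlw hwp) hws
          have hlb : l' = b := by
            by_contra hlb
            have h0 := hs.empty hG hB hls hlb
            have := cnt_pos hlw hwD
            omega
          subst hlb
          obtain ⟨y0, z0, hy0, hz0, -, -, -, -, -, hall⟩ := hB.shape hG
          rcases hall p hl'.1 with h | h | h
          · exact hps h
          · exact hpD (h ▸ hy0)
          · exact hnS (h ▸ hz0)
        · exact hnS ⟨hpD, l', hHv hl' hls⟩
  have hv := hD.max _ (valid_insert hG hC hE1 ha)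
  rw [Finset.card_insert_of_notMem hyE1, Finset.card_insert_of_notMem
    (fun h => hsD (Finset.mem_of_mem_erase h)), Finset.card_erase_of_mem hxD] at hv
  have := Finset.card_pos.mpr ⟨x, hxD⟩
  omega

/-- the third point of an empty line given by the exchange -/
theorem exchange' (hG : G.IsRegularOfDegree 3) (hC : C4F G) {D : Finset V} (hD : Opt G D)
    {s b x k y g : V} (hs : Tight G D s) (ht : Tow G D s b x k) (hy : B1 G D y)
    (hg : BLine G D y g) (hgx : G.Adj g x) (hne : g ≠ b) :
    ∃ z, G.Adj z s ∧ G.Adj z y ∧ cnt G D z = 0 ∧ ¬ Z0 G D z ∧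
      ∀ w, G.Adj z w → w ≠ s → S0 G D w → w = y := by
  obtain ⟨z, p, hzs, hzy, hz, hzp, hp⟩ := exchange hG hC hD hs ht hy hg hgx hne
  have hsy : y ≠ s := by
    rintro rfl
    exact hne (bline_unique hy.2 hg ht.1)
  have hps : p ≠ s := by
    rintro rfl
    obtain ⟨-, l, hl⟩ := hp
    exact hs.1.2 l hl
  have hpy : p ≠ y := by
    rintro rfl
    obtain ⟨-, l, hl⟩ := hp
    exact hy.1.2 l hl
  refine ⟨z, hzs, hzy, hz, fun h => h.2 p hzp hp, ?_⟩
  intro w hw hws hw0
  obtain ⟨r, hr, hrs, hry, hall⟩ := exists_third hG hzs hzy hsy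
  have hrp : p = r := by
    rcases hall p hzp with h | h | h
    · exact absurd h hps
    · exact absurd h hpy
    · exact h
  rcases hall w hw with h | h | h
  · exact absurd h hws
  · exact h
  · obtain ⟨-, l, hl⟩ := hp
    rw [← hrp] at h
    exact absurd (h ▸ hl) (hw0.2 l)

end Pool.Agent.OC4
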