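import Pool.Agent.OC4.Mult

/-!
# Counting the empty lines, and the theorem
-/

set_option autoImplicit false

namespace Pool.Agent.OC4

open Pool.Agent.OLD

variable {V : Type*} [Fintype V] [DecidableEq V] {G : SimpleGraph V} [DecidableRel G.Adj]

theorem mem_S0s {D : Finset V} {x : V} : x ∈ S0s G D ↔ S0 G D x := by
  classical
  unfold S0s
  simp

/-- number of empty lines -/
def l0 (G : SimpleGraph V) [DecidableRel G.Adj] (D : Finset V) : ℕ :=
  (Finset.univ.filter fun l => cnt G D l = 0).card

theorem card_lines_split (hG : G.IsRegularOfDegree 3) {D : Finset V} (hD : Valid G D) :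
    Fintype.card V = hc G D + h1 G D + l0 G D := by
  unfold hc h1 l0
  rw [Finset.card_filter, Finset.card_filter, Finset.card_filter, ← Finset.sum_add_distrib,
    ← Finset.sum_add_distrib, ← Finset.card_univ, Finset.card_eq_sum_ones]
  refine Finset.sum_congr rfl fun l _ => ?_
  have := hD.cnt_le hG l
  have h3 : cnt G D l = 0 ∨ cnt G D l = 1 ∨ cnt G D l = 2 := by omega
  rcases h3 with h | h | h <;> simp [h]

theorem ee_le {D : Finset V} {s : V} : ee G D s ≤ tnum G D s := by
  classical
  unfold ee tnum
  refine Finset.card_le_card fun z hz => ?_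
  simp only [Finset.mem_filter, Finset.mem_univ, true_and] at hz ⊢
  exact ⟨hz.1, hz.2.1⟩

theorem card_points (hG : G.IsRegularOfDegree 3) (z : V) :
    (Finset.univ.filter fun p => G.Adj z p).card = 3 := by
  have : (Finset.univ.filter fun p => G.Adj z p) = G.neighborFinset z := by
    ext p; simp
  rw [this, SimpleGraph.card_neighborFinset_eq_degree]
  exact hG z

open scoped Classical in
theorem three_E (hG : G.IsRegularOfDegree 3) (D : Finset V) :
    3 * (Finset.univ.filter fun z => Z0 G D z).card = ∑ s ∈ S0s G D, ee G D s := by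
  have h : ∀ s, ee G D s =
      ∑ z ∈ Finset.univ.filter (fun z => Z0 G D z), if G.Adj z s then 1 else 0 := by
    intro s
    unfold ee
    rw [← Finset.card_filter, Finset.filter_filter]
    congr 1
    ext z
    simp only [Finset.mem_filter, Finset.mem_univ, true_and]
    exact and_comm
  rw [Finset.sum_congr rfl (fun s _ => h s), Finset.sum_comm, Finset.card_eq_sum_ones,
    Finset.mul_sum]
  refine Finset.sum_congr rfl fun z hz => ?_
  simp only [Finset.mem_filter, Finset.mem_univ, true_and] at hz
  rw [← Finset.card_filter, mul_one, ← card_points hG z]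
  congr 1
  ext p
  simp only [Finset.mem_filter, Finset.mem_univ, true_and]
  rw [mem_S0s]
  constructor
  · intro hp
    refine ⟨⟨fun hpD => ?_, fun l hl => ?_⟩, hp⟩
    · have := cnt_pos hp hpD
      have := hz.1
      omega
    · by_cases hpD : p ∈ D
      · have := cnt_pos hp hpD
        have := hz.1
        omega
      · exact hz.2 p hp ⟨hpD, l, hl⟩
  · intro hp; exact hp.2

open scoped Classical in
theorem zcount1 (hG : G.IsRegularOfDegree 3) (D : Finset V) :
    3 * (Finset.univ.filter fun z => Z0 G D z).card +
      2 * (Finset.univ.filter fun s => Tight G D s).card ≤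
      ∑ s ∈ Finset.univ.filter (fun s => Tight G D s), ee G D s + ∑ s ∈ S0s G D, tnum G D s := by
  rw [three_E hG D]
  have hsub : (Finset.univ.filter fun s => Tight G D s) ⊆ S0s G D := by
    intro s hs
    rw [mem_S0s]
    exact (by simpa using hs : Tight G D s).1
  rw [← Finset.sum_sdiff hsub (f := fun s => ee G D s),
    ← Finset.sum_sdiff hsub (f := fun s => tnum G D s)]
  have h1 : ∑ s ∈ S0s G D \ (Finset.univ.filter fun s => Tight G D s), ee G D s ≤
      ∑ s ∈ S0s G D \ (Finset.univ.filter fun s => Tight G D s), tnum G D s :=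
    Finset.sum_le_sum fun s _ => ee_le
  have h2 : ∑ s ∈ Finset.univ.filter (fun s => Tight G D s), tnum G D s =
      2 * (Finset.univ.filter fun s => Tight G D s).card := by
    rw [Finset.sum_congr rfl (g := fun _ => 2), Finset.sum_const, smul_eq_mul, mul_comm]
    intro s hs
    simp only [Finset.mem_filter, Finset.mem_univ, true_and] at hs
    exact hs.2.2
  omega

open scoped Classical in
theorem zcount2 (hG : G.IsRegularOfDegree 3) (D : Finset V) :
    ∑ s ∈ S0s G D, tnum G D s ≤ 2 * l0 G D + (Finset.univ.filter fun z => Z0 G D z).card := by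
  have h : ∀ s, tnum G D s =
      ∑ z ∈ Finset.univ.filter (fun z => cnt G D z = 0), if G.Adj z s then 1 else 0 := by
    intro s
    unfold tnum
    rw [← Finset.card_filter, Finset.filter_filter]
    congr 1
    ext z
    simp only [Finset.mem_filter, Finset.mem_univ, true_and]
    exact and_comm
  have hE : (Finset.univ.filter fun z => Z0 G D z).card =
      ∑ z ∈ Finset.univ.filter (fun z => cnt G D z = 0), if Z0 G D z then 1 else 0 := by
    rw [← Finset.card_filter, Finset.filter_filter]
    congr 1
    ext z
    simp only [Finset.mem_filter, Finset.mem_univ, true_and]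
    exact ⟨fun h => ⟨h.1, h⟩, fun h => h.2⟩
  have hl : 2 * l0 G D = ∑ z ∈ Finset.univ.filter (fun z => cnt G D z = 0), 2 := by
    unfold l0
    rw [Finset.sum_const, smul_eq_mul, mul_comm]
  rw [Finset.sum_congr rfl (fun s _ => h s), Finset.sum_comm, hE, hl, ← Finset.sum_add_distrib]
  refine Finset.sum_le_sum fun z hz => ?_
  simp only [Finset.mem_filter, Finset.mem_univ, true_and] at hz
  rw [← Finset.card_filter]
  have h3 := card_points hG z
  by_cases h0 : Z0 G D z
  · rw [if_pos h0]
    refine (Finset.card_le_card ?_).trans h3.le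
    intro p hp
    simp only [Finset.mem_filter, Finset.mem_univ, true_and] at hp ⊢
    exact hp.2
  · rw [if_neg h0]
    have : ∃ p, G.Adj z p ∧ S1 G D p := by
      by_contra hcon
      push Not at hcon
      exact h0 ⟨hz, hcon⟩
    obtain ⟨p, hp, hpS⟩ := this
    have hlt : ((S0s G D).filter fun s => G.Adj z s).card <
        (Finset.univ.filter fun p => G.Adj z p).card := by
      apply Finset.card_lt_card
      rw [Finset.ssubset_iff_of_subset]
      · refine ⟨p, by simpa using hp, ?_⟩
        rw [Finset.mem_filter, mem_S0s]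
        rintro ⟨h, -⟩
        obtain ⟨-, l, hl⟩ := hpS
        exact h.2 l hl
      · intro q hq
        simp only [Finset.mem_filter, Finset.mem_univ, true_and] at hq ⊢
        exact hq.2
    omega

open scoped Classical in
theorem pointwise (hG : G.IsRegularOfDegree 3) (hC : C4F G) {D : Finset V} (hD : Opt G D) :
    ∑ s ∈ S0s G D, (78 * tnum G D s + 11 * anum G D s + 18) ≤
      ∑ s ∈ S0s G D, 86 * bnum G D s + 22 * (Finset.univ.filter fun y => B1 G D y).card +
        66 * (Finset.univ.filter fun s => Tight G D s).card := by
  have hB : (Finset.univ.filter fun y => B1 G D y).card =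
      ∑ s ∈ S0s G D, if B1 G D s then 1 else 0 := by
    rw [← Finset.card_filter]
    congr 1
    ext s
    rw [Finset.mem_filter, Finset.mem_filter, mem_S0s]
    simp only [Finset.mem_univ, true_and]
    exact ⟨fun h => ⟨h.1, h⟩, fun h => h.2⟩
  have hT : (Finset.univ.filter fun y => Tight G D y).card =
      ∑ s ∈ S0s G D, if Tight G D s then 1 else 0 := by
    rw [← Finset.card_filter]
    congr 1
    ext s
    rw [Finset.mem_filter, Finset.mem_filter, mem_S0s]
    simp only [Finset.mem_univ, true_and]
    exact ⟨fun h => ⟨h.1, h⟩, fun h => h.2⟩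
  rw [hB, hT, Finset.mul_sum, Finset.mul_sum, ← Finset.sum_add_distrib, ← Finset.sum_add_distrib]
  refine Finset.sum_le_sum fun s hs => ?_
  rw [mem_S0s] at hs
  have h3 := anum_add_bnum_add_tnum hG hs
  have hb := bnum_pos hG hC hD hs
  by_cases h1 : bnum G D s = 1
  · have hB1 : B1 G D s := ⟨hs, h1⟩
    rw [if_pos hB1]
    by_cases h2 : tnum G D s = 2
    · have : Tight G D s := ⟨hs, h1, h2⟩
      rw [if_pos this]
      omega
    · have : ¬ Tight G D s := fun h => h2 h.2.2
      rw [if_neg this]
      omega
  · have hB1 : ¬ B1 G D s := fun h => h1 h.2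
    have : ¬ Tight G D s := fun h => h1 h.2.1
    rw [if_neg hB1, if_neg this]
    omega

/-- an optimal set has at least `7n/20` points -/
theorem seven_twentieths (hG : G.IsRegularOfDegree 3) (hC : C4F G) {D : Finset V}
    (hD : Opt G D) : 7 * Fintype.card V ≤ 20 * D.card := by
  classical
  have e1 := three_card hG hD.valid
  have e2 := card_split hG hD.valid
  have e3 := two_h1 hG D
  have e4 := three_S0 hG D
  have e5 := card_lines_split hG hD.valid
  have e6 := double_count hG hC hD
  have e7 := good_count hG D
  have e8 := zcount1 hG D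
  have e9 := zcount2 hG D
  have e10 := pointwise hG hC hD
  have e11 : ∑ s ∈ Finset.univ.filter (fun s => Tight G D s), ee G D s ≤
      ∑ s ∈ Finset.univ.filter (fun s => Tight G D s), 2 := by
    refine Finset.sum_le_sum fun s hs => ?_
    simp only [Finset.mem_filter, Finset.mem_univ, true_and] at hs
    have := ee_le (G := G) (D := D) (s := s)
    have := hs.2.2
    omega
  simp only [Finset.sum_add_distrib, ← Finset.mul_sum, Finset.sum_const, smul_eq_mul] at e3 e4 e6 e10 e11
  omega

open scoped Classical in
/-- **Theorem.** A cubic graph without 4-cycles has an open locating-dominating set with at most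
`13 n / 20` vertices. -/
theorem main {V : Type*} [Fintype V] (G : SimpleGraph V) (hG : G.IsRegularOfDegree 3)
    (hC : C4F G) : ∃ S : Finset V, IsOLD G S ∧ 20 * S.card ≤ 13 * Fintype.card V := by
  obtain ⟨D, hD⟩ := exists_opt (G := G) hG
  refine ⟨Dᶜ, isOLD_compl hG hC hD.valid, ?_⟩
  have h1 := seven_twentieths hG hC hD
  have h2 := Finset.card_add_card_compl D
  omega

end Pool.Agent.OC4
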