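import Pool.Agent.OC4.Slots

/-!
# Every good line is a slot of at most two tight points; the double count
-/

set_option autoImplicit false

namespace Pool.Agent.OC4

open Pool.Agent.OLD

variable {V : Type*} [Fintype V] [DecidableEq V] {G : SimpleGraph V} [DecidableRel G.Adj]

open scoped Classical in
theorem mult (hG : G.IsRegularOfDegree 3) (hC : C4F G) {D : Finset V} (hD : Opt G D)
    {g : V} : (Finset.univ.filter fun s => Tight G D s ∧ Slot G D s g).card ≤ 2 := by
  by_cases hc : cnt G D g = 1
  swap
  · have : (Finset.univ.filter fun s => Tight G D s ∧ Slot G D s g) = ∅ := by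
      rw [Finset.filter_eq_empty_iff]
      rintro s - ⟨-, h⟩
      exact hc h.1
    rw [this]
    simp
  obtain ⟨x, hx, hgx⟩ := exists_mem_of_cnt_one hc
  have hsub : ∀ l, ({s | s ∈ (Finset.univ.filter fun s => Tight G D s ∧ Slot G D s g) ∧
      BLine G D s l} : Set V).Subsingleton := by
    intro l s hs s' hs'
    by_contra hne
    have h1 : Tight G D s' := by simpa using (Finset.mem_filter.mp hs'.1).2.1
    exact not_mem_bline hG hs.2 h1.1 (Ne.symm hne) hs'.2.1
  by_cases hA : ∃ A, G.Adj A x ∧ cnt G D A = 2
  · obtain ⟨A, hAx, hA2⟩ := hA
    obtain ⟨z, hz, hHz⟩ := exists_hv_of_cnt hG hA2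
    have hcard : ((Finset.univ.filter fun l => G.Adj l z).erase A).card = 2 := by
      rw [Finset.card_erase_of_mem (by simpa using hHz.1), card_lines hG z]
    rw [← hcard]
    refine Finset.card_le_card_of_forall_subsingleton (fun s l => BLine G D s l) ?_
      (fun l _ => hsub l)
    intro s hs
    simp only [Finset.mem_filter, Finset.mem_univ, true_and] at hs
    obtain ⟨hT, -, l, x', k, hTow, hgx', hgl⟩ := hs
    have hxx : x' = x := cnt_one_unique hc hTow.2.1 hx hgx' hgx
    subst hxx
    have hkl : k ≠ l := by
      rintro rfl
      have := light_u hG hC hD hT hTow hAx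
      omega
    have hAk : A = k := by
      by_contra hAk
      have := light_v hG hC hD hT hTow hkl hAx hAk
      omega
    subst hAk
    rcases hTow.2.2.2 with h | ⟨z', hlz', hz's, hz'D, hH⟩
    · exact absurd h hkl
    · have hzz : z' = z := by
        by_contra hne
        exact hz'D (hHz.2 z' hH.1 hne)
      subst hzz
      refine ⟨l, ?_, hTow.1⟩
      rw [Finset.mem_erase]
      exact ⟨Ne.symm hkl, by simpa using hlz'⟩
  · push Not at hA
    have hcard : ((Finset.univ.filter fun l => G.Adj l x).erase g).card = 2 := by
      rw [Finset.card_erase_of_mem (by simpa using hgx), card_lines hG x]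
    rw [← hcard]
    refine Finset.card_le_card_of_forall_subsingleton (fun s l => BLine G D s l) ?_
      (fun l _ => hsub l)
    intro s hs
    simp only [Finset.mem_filter, Finset.mem_univ, true_and] at hs
    obtain ⟨hT, -, l, x', k, hTow, hgx', hgl⟩ := hs
    have hxx : x' = x := cnt_one_unique hc hTow.2.1 hx hgx' hgx
    subst hxx
    have hkl : k = l := by
      by_contra hkl
      rcases hTow.2.2.2 with h | ⟨z', hlz', hz's, hz'D, hH⟩
      · exact hkl h
      · exact hA k hTow.2.2.1 (hH.cnt_eq hG hz'D)
    subst hkl
    refine ⟨k, ?_, hTow.1⟩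
    rw [Finset.mem_erase]
    exact ⟨Ne.symm hgl, by simpa using hTow.2.2.1⟩

open scoped Classical in
/-- the double count -/
theorem double_count (hG : G.IsRegularOfDegree 3) (hC : C4F G) {D : Finset V} (hD : Opt G D) :
    ∑ s ∈ Finset.univ.filter (fun s => Tight G D s), (4 + ee G D s) ≤
      2 * (Finset.univ.filter fun g => GoodL G D g).card := by
  have h1 : ∑ s ∈ Finset.univ.filter (fun s => Tight G D s), (4 + ee G D s) ≤
      ∑ s ∈ Finset.univ.filter (fun s => Tight G D s),
        (Finset.univ.filter fun g => Slot G D s g ∧ GoodL G D g).card := by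
    refine Finset.sum_le_sum fun s hs => ?_
    simp only [Finset.mem_filter, Finset.mem_univ, true_and] at hs
    exact good_slots hG hC hD hs
  refine h1.trans ?_
  have h2 : ∀ s, (Finset.univ.filter fun g => Slot G D s g ∧ GoodL G D g).card =
      ∑ g ∈ Finset.univ.filter (fun g => GoodL G D g), if Slot G D s g then 1 else 0 := by
    intro s
    rw [← Finset.card_filter, Finset.filter_filter]
    congr 1
    ext g
    simp only [Finset.mem_filter, Finset.mem_univ, true_and]
    exact and_comm
  rw [Finset.sum_congr rfl (fun s _ => h2 s), Finset.sum_comm]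
  calc ∑ g ∈ Finset.univ.filter (fun g => GoodL G D g),
        ∑ s ∈ Finset.univ.filter (fun s => Tight G D s), (if Slot G D s g then 1 else 0)
      ≤ ∑ g ∈ Finset.univ.filter (fun g => GoodL G D g), 2 := by
        refine Finset.sum_le_sum fun g _ => ?_
        rw [← Finset.card_filter, Finset.filter_filter]
        exact mult hG hC hD
    _ = 2 * (Finset.univ.filter fun g => GoodL G D g).card := by
        rw [Finset.sum_const, smul_eq_mul, mul_comm]

open scoped Classical in
/-- the number of good lines -/
theorem good_count (hG : G.IsRegularOfDegree 3) (D : Finset V) :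
    (Finset.univ.filter fun g => GoodL G D g).card +
      (Finset.univ.filter fun y => B1 G D y).card = h1 G D := by
  have h1' : (Finset.univ.filter fun y => B1 G D y).card =
      (Finset.univ.filter fun g => cnt G D g = 1 ∧ BadL G D g).card := by
    apply le_antisymm
    · refine Finset.card_le_card_of_forall_subsingleton (fun y g => BLine G D y g) ?_ ?_
      · intro y hy
        simp only [Finset.mem_filter, Finset.mem_univ, true_and] at hy
        have h := hy.2
        unfold bnum at h
        obtain ⟨b, hb⟩ := Finset.card_pos.mp (h ▸ Nat.one_pos :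
          0 < (Finset.univ.filter fun l => BLine G D y l).card)
        have hb' : BLine G D y b := by simpa using hb
        exact ⟨b, by simpa using ⟨hb'.2.2.1, y, hy, hb'⟩, hb'⟩
      · intro g _ y hy y' hy'
        by_contra hne
        have h1 : B1 G D y' := by simpa using hy'.1
        exact not_mem_bline hG hy.2 h1.1 (Ne.symm hne) hy'.2.1
    · refine Finset.card_le_card_of_forall_subsingleton (fun g y => BLine G D y g) ?_ ?_
      · intro g hg
        simp only [Finset.mem_filter, Finset.mem_univ, true_and] at hg
        obtain ⟨-, y, hy, hyg⟩ := hg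
        exact ⟨y, by simpa using hy, hyg⟩
      · intro y hy g hg g' hg'
        simp only [Finset.mem_filter, Finset.mem_univ, true_and] at hy
        exact bline_unique hy.2 hg.2 hg'.2
  rw [h1']
  unfold h1
  rw [← Finset.card_filter_add_card_filter_not (s := Finset.univ.filter
      fun l => cnt G D l = 1) (fun l => BadL G D l), Finset.filter_filter,
      Finset.filter_filter, add_comm]
  congr 2
  ext g
  simp only [Finset.mem_filter, Finset.mem_univ, true_and, GoodL]

end Pool.Agent.OC4
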