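import Pool.Agent.OC4.Swap

/-!
# A tight point has at least `4 + e` good slots
-/

set_option autoImplicit false

namespace Pool.Agent.OC4

open Pool.Agent.OLD

variable {V : Type*} [Fintype V] [DecidableEq V] {G : SimpleGraph V} [DecidableRel G.Adj]

theorem Tight.exists_bline {D : Finset V} {s : V} (hs : Tight G D s) : ∃ b, BLine G D s b := by
  classical
  have h := hs.2.1
  unfold bnum at h
  obtain ⟨b, hb⟩ := Finset.card_pos.mp (h ▸ Nat.one_pos :
    0 < (Finset.univ.filter fun l => BLine G D s l).card)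
  exact ⟨b, by simpa using hb⟩

/-- the shape of the surroundings of a tight point -/
theorem Tight.shape (hG : G.IsRegularOfDegree 3) (hC : C4F G) {D : Finset V} (hD : Opt G D)
    {s : V} (hs : Tight G D s) :
    ∃ b u v w k t, Tow G D s b u b ∧ Tow G D s b v k ∧ Tow G D s b w k ∧ k ≠ b ∧ u ≠ v ∧ u ≠ w ∧
      v ≠ w ∧ G.Adj b t ∧ t ≠ s ∧ t ∉ D ∧ Hv G D k t ∧ (∀ z, G.Adj k z → z = t ∨ z = v ∨ z = w) := by
  obtain ⟨b, hb⟩ := hs.exists_bline
  obtain ⟨u, t, hu, ht, hus, hts, htu, hbu, hbt, hall⟩ := hb.shape hG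
  obtain ⟨htD, k, hk⟩ := ht
  obtain ⟨v, w, hvt, hwt, hwv, hkv, hkw, he⟩ := line_eq hG hk.1
  have hv : v ∈ D := hk.2 v hkv hvt
  have hw : w ∈ D := hk.2 w hkw hwt
  have hTu : Tow G D s b u b := ⟨hb, hu, hbu, Or.inl rfl⟩
  have hTv : Tow G D s b v k := ⟨hb, hv, hkv, Or.inr ⟨t, hbt, hts, htD, hk⟩⟩
  have hTw : Tow G D s b w k := ⟨hb, hw, hkw, Or.inr ⟨t, hbt, hts, htD, hk⟩⟩
  have hk2 : cnt G D k = 2 := hk.cnt_eq hG htD
  have hkb : k ≠ b := by
    rintro rfl
    have := hb.2.2.1
    omega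
  have huv : u ≠ v := by
    rintro rfl
    have := light_u hG hC hD hs hTu hkv
    omega
  have huw : u ≠ w := by
    rintro rfl
    have := light_u hG hC hD hs hTu hkw
    omega
  refine ⟨b, u, v, w, k, t, hTu, hTv, hTw, hkb, huv, huw, hwv.symm, hbt, hts, htD, hk, ?_⟩
  intro z hz
  have hz' : z ∈ G.neighborFinset k := by simpa using hz
  rw [he] at hz'
  simpa using hz'

open scoped Classical in
theorem slots_card (hG : G.IsRegularOfDegree 3) (hC : C4F G) {D : Finset V} (hD : Opt G D)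
    {s : V} (hs : Tight G D s) : 6 ≤ (Finset.univ.filter fun g => Slot G D s g).card := by
  obtain ⟨b, u, v, w, k, t, hTu, hTv, hTw, hkb, huv, huw, hvw, -⟩ := hs.shape hG hC hD
  set Lu := (Finset.univ.filter fun l => G.Adj l u).erase b with hLu
  set Lv := (Finset.univ.filter fun l => G.Adj l v).erase k with hLv
  set Lw := (Finset.univ.filter fun l => G.Adj l w).erase k with hLw
  have cu : Lu.card = 2 := by
    rw [hLu, Finset.card_erase_of_mem (by simpa using hTu.2.2.1), card_lines hG u]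
  have cv : Lv.card = 2 := by
    rw [hLv, Finset.card_erase_of_mem (by simpa using hTv.2.2.1), card_lines hG v]
  have cw : Lw.card = 2 := by
    rw [hLw, Finset.card_erase_of_mem (by simpa using hTw.2.2.1), card_lines hG w]
  have mu : ∀ g ∈ Lu, G.Adj g u ∧ cnt G D g = 1 ∧ g ≠ b := by
    intro g hg
    rw [hLu, Finset.mem_erase] at hg
    have h1 : G.Adj g u := by simpa using hg.2
    exact ⟨h1, light_u hG hC hD hs hTu h1, hg.1⟩
  have hb1 : cnt G D b = 1 := hTu.1.2.2.1
  have mv : ∀ g ∈ Lv, G.Adj g v ∧ cnt G D g = 1 ∧ g ≠ b := by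
    intro g hg
    rw [hLv, Finset.mem_erase] at hg
    have h1 : G.Adj g v := by simpa using hg.2
    refine ⟨h1, light_v hG hC hD hs hTv hkb h1 hg.1, ?_⟩
    rintro rfl
    exact huv (cnt_one_unique hb1 hTu.2.1 hTv.2.1 hTu.2.2.1 h1)
  have mw : ∀ g ∈ Lw, G.Adj g w ∧ cnt G D g = 1 ∧ g ≠ b := by
    intro g hg
    rw [hLw, Finset.mem_erase] at hg
    have h1 : G.Adj g w := by simpa using hg.2
    refine ⟨h1, light_v hG hC hD hs hTw hkb h1 hg.1, ?_⟩
    rintro rfl
    exact huw (cnt_one_unique hb1 hTu.2.1 hTw.2.1 hTu.2.2.1 h1)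
  have d1 : Disjoint Lu Lv := by
    rw [Finset.disjoint_left]
    intro g h1 h2
    exact huv (cnt_one_unique (mu g h1).2.1 hTu.2.1 hTv.2.1 (mu g h1).1 (mv g h2).1)
  have d2 : Disjoint (Lu ∪ Lv) Lw := by
    rw [Finset.disjoint_left]
    intro g h1 h2
    rcases Finset.mem_union.mp h1 with h1 | h1
    · exact huw (cnt_one_unique (mu g h1).2.1 hTu.2.1 hTw.2.1 (mu g h1).1 (mw g h2).1)
    · exact hvw (cnt_one_unique (mv g h1).2.1 hTv.2.1 hTw.2.1 (mv g h1).1 (mw g h2).1)
  have hsub : (Lu ∪ Lv) ∪ Lw ⊆ Finset.univ.filter fun g => Slot G D s g := by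
    intro g hg
    simp only [Finset.mem_filter, Finset.mem_univ, true_and]
    rcases Finset.mem_union.mp hg with hg | hg
    · rcases Finset.mem_union.mp hg with hg | hg
      · exact ⟨(mu g hg).2.1, b, u, b, hTu, (mu g hg).1, (mu g hg).2.2⟩
      · exact ⟨(mv g hg).2.1, b, v, k, hTv, (mv g hg).1, (mv g hg).2.2⟩
    · exact ⟨(mw g hg).2.1, b, w, k, hTw, (mw g hg).1, (mw g hg).2.2⟩
  have := Finset.card_le_card hsub
  rw [Finset.card_union_of_disjoint d2, Finset.card_union_of_disjoint d1, cu, cv, cw] at this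
  exact this

open scoped Classical in
theorem bad_slots (hG : G.IsRegularOfDegree 3) (hC : C4F G) {D : Finset V} (hD : Opt G D)
    {s : V} (hs : Tight G D s) :
    (Finset.univ.filter fun g => Slot G D s g ∧ BadL G D g).card + ee G D s ≤ 2 := by
  have h1 : (Finset.univ.filter fun g => Slot G D s g ∧ BadL G D g).card ≤
      (Finset.univ.filter fun z => (G.Adj z s ∧ cnt G D z = 0) ∧ ¬ Z0 G D z).card := by
    refine Finset.card_le_card_of_forall_subsingleton
      (fun g z => ∃ y, B1 G D y ∧ BLine G D y g ∧ y ≠ s ∧ G.Adj z y ∧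
        ∀ w, G.Adj z w → w ≠ s → S0 G D w → w = y) ?_ ?_
    · intro g hg
      simp only [Finset.mem_filter, Finset.mem_univ, true_and] at hg
      obtain ⟨⟨-, l, x, k, hT, hgx, hgl⟩, y, hy, hyg⟩ := hg
      obtain ⟨z, hzs, hzy, hz, hz0, hw⟩ := exchange' hG hC hD hs hT hy hyg hgx hgl
      refine ⟨z, by simpa using ⟨⟨hzs, hz⟩, hz0⟩, y, hy, hyg, ?_, hzy, hw⟩
      rintro rfl
      exact hgl (bline_unique hy.2 hyg hT.1)
    · intro z _ g hg g' hg'
      obtain ⟨-, y, hy, hyg, hys, hzy, hw⟩ := hg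
      obtain ⟨-, y', hy', hyg', hys', hzy', hw'⟩ := hg'
      have := hw y' hzy' hys' hy'.1
      subst this
      exact bline_unique hy.2 hyg hyg'
  have h2 : (Finset.univ.filter fun z => (G.Adj z s ∧ cnt G D z = 0) ∧ ¬ Z0 G D z).card +
      ee G D s = tnum G D s := by
    unfold ee tnum
    rw [← Finset.card_filter_add_card_filter_not (s := Finset.univ.filter
      fun z => G.Adj z s ∧ cnt G D z = 0) (fun z => Z0 G D z), Finset.filter_filter,
      Finset.filter_filter, add_comm]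
    congr 2
    ext z
    simp only [Finset.mem_filter, Finset.mem_univ, true_and]
    constructor
    · rintro ⟨h1, h2⟩; exact ⟨⟨h1, h2.1⟩, h2⟩
    · rintro ⟨⟨h1, -⟩, h2⟩; exact ⟨h1, h2⟩
  have h3 := hs.2.2
  omega

open scoped Classical in
theorem good_slots (hG : G.IsRegularOfDegree 3) (hC : C4F G) {D : Finset V} (hD : Opt G D)
    {s : V} (hs : Tight G D s) :
    4 + ee G D s ≤ (Finset.univ.filter fun g => Slot G D s g ∧ GoodL G D g).card := by
  have h1 := slots_card hG hC hD hs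
  have h2 := bad_slots hG hC hD hs
  have h3 : (Finset.univ.filter fun g => Slot G D s g).card ≤
      (Finset.univ.filter fun g => Slot G D s g ∧ BadL G D g).card +
      (Finset.univ.filter fun g => Slot G D s g ∧ GoodL G D g).card := by
    refine (Finset.card_le_card ?_).trans (Finset.card_union_le _ _)
    intro g hg
    simp only [Finset.mem_filter, Finset.mem_univ, true_and, Finset.mem_union] at hg ⊢
    by_cases hb : BadL G D g
    · exact Or.inl ⟨hg, hb⟩
    · exact Or.inr ⟨hg, hg.1, hb⟩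
  omega

end Pool.Agent.OC4
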