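import Pool.Agent.OC4.Exch

/-!
# Swaps at a tight point: the lines at the three points of `D` towards it
-/

set_option autoImplicit false

namespace Pool.Agent.OC4

open Pool.Agent.OLD

variable {V : Type*} [Fintype V] [DecidableEq V] {G : SimpleGraph V} [DecidableRel G.Adj]

theorem cnt_swap {D : Finset V} {s x l : V} (hs : s ∉ D) (hx : x ∈ D) :
    cnt G (insert s (D.erase x)) l + (if G.Adj l x then 1 else 0) =
      cnt G D l + (if G.Adj l s then 1 else 0) := by
  unfold cnt
  by_cases h1 : G.Adj l s
  · have h1' : s ∈ G.neighborFinset l := by simpa using h1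
    rw [Finset.inter_insert_of_mem h1', Finset.inter_erase]
    have hn : s ∉ (G.neighborFinset l ∩ D).erase x := fun h =>
      hs (Finset.mem_inter.mp (Finset.mem_of_mem_erase h)).2
    rw [Finset.card_insert_of_notMem hn]
    by_cases h2 : G.Adj l x
    · have h2' : x ∈ G.neighborFinset l ∩ D := by simp [h2, hx]
      rw [Finset.card_erase_of_mem h2']
      have := Finset.card_pos.mpr ⟨x, h2'⟩
      simp only [h1, h2, if_true]
      omega
    · have h2' : x ∉ G.neighborFinset l ∩ D := by simp [h2]
      rw [Finset.erase_eq_of_notMem h2']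
      simp [h1, h2]
  · have h1' : s ∉ G.neighborFinset l := by simpa using h1
    rw [Finset.inter_insert_of_notMem h1', Finset.inter_erase]
    by_cases h2 : G.Adj l x
    · have h2' : x ∈ G.neighborFinset l ∩ D := by simp [h2, hx]
      rw [Finset.card_erase_of_mem h2']
      have := Finset.card_pos.mpr ⟨x, h2'⟩
      simp only [h1, h2, if_true, if_false]
      omega
    · have h2' : x ∉ G.neighborFinset l ∩ D := by simp [h2]
      rw [Finset.erase_eq_of_notMem h2']
      simp [h1, h2]

/-- the heavy lines after a swap -/
theorem heavy_swap (hG : G.IsRegularOfDegree 3) {D : Finset V} (hD : Valid G D)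
    {s b x k l : V} (hs : Tight G D s) (ht : Tow G D s b x k)
    (hl : cnt G (insert s (D.erase x)) l = 2) :
    (cnt G D l = 2 ∧ ¬ G.Adj l x) ∨ (l = b ∧ ¬ G.Adj b x) := by
  have h := cnt_swap (G := G) (l := l) hs.1.1 ht.2.1
  have hle := hD.cnt_le hG l
  rw [hl] at h
  by_cases h1 : G.Adj l s
  · by_cases hlb : l = b
    · subst hlb
      right
      refine ⟨rfl, fun h2 => ?_⟩
      have := ht.1.2.2.1
      rw [if_pos h1, if_pos h2] at h
      omega
    · have h0 := hs.empty hG ht.1 h1 hlb
      rw [if_pos h1, h0] at h
      omega
  · left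
    rw [if_neg h1] at h
    by_cases h2 : G.Adj l x
    · rw [if_pos h2] at h; omega
    · rw [if_neg h2] at h; exact ⟨by omega, h2⟩

theorem swap_min (hG : G.IsRegularOfDegree 3) (hC : C4F G) {D : Finset V} (hD : Opt G D)
    {s b x k : V} (hs : Tight G D s) (ht : Tow G D s b x k) :
    hc G D ≤ hc G (insert s (D.erase x)) := by
  refine hD.min _ (valid_insert hG hC (hD.valid.mono (Finset.erase_subset _ _))
    (hs.b1.addable hG hD.valid ht)) ?_
  rw [Finset.card_insert_of_notMem (fun h => hs.1.1 (Finset.mem_of_mem_erase h)),
    Finset.card_erase_of_mem ht.2.1]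
  have := Finset.card_pos.mpr ⟨x, ht.2.1⟩
  omega

/-- all lines at the point of `D` on the blocking line of a tight point are light -/
theorem light_u (hG : G.IsRegularOfDegree 3) (hC : C4F G) {D : Finset V} (hD : Opt G D)
    {s b u : V} (hs : Tight G D s) (ht : Tow G D s b u b) {g : V} (hg : G.Adj g u) :
    cnt G D g = 1 := by
  have h1 := cnt_pos hg ht.2.1
  have h2 := hD.valid.cnt_le hG g
  by_contra hne
  have hg2 : cnt G D g = 2 := by omega
  have hm := swap_min hG hC hD hs ht
  have hlt : hc G (insert s (D.erase u)) < hc G D := by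
    unfold hc
    apply Finset.card_lt_card
    rw [Finset.ssubset_iff_of_subset]
    · refine ⟨g, by simpa using hg2, ?_⟩
      intro hgm
      simp only [Finset.mem_filter, Finset.mem_univ, true_and] at hgm
      rcases heavy_swap hG hD.valid hs ht hgm with h | h
      · exact h.2 hg
      · exact h.2 ht.2.2.1
    · intro l hl
      simp only [Finset.mem_filter, Finset.mem_univ, true_and] at hl ⊢
      rcases heavy_swap hG hD.valid hs ht hl with h | h
      · exact h.1
      · exact absurd ht.2.2.1 h.2
  omega

/-- the private line of the charged point of the blocking line is the only heavy line at its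
points in `D` -/
theorem light_v (hG : G.IsRegularOfDegree 3) (hC : C4F G) {D : Finset V} (hD : Opt G D)
    {s b v k : V} (hs : Tight G D s) (ht : Tow G D s b v k) (hkb : k ≠ b) {g : V}
    (hg : G.Adj g v) (hgk : g ≠ k) : cnt G D g = 1 := by
  have h1 := cnt_pos hg ht.2.1
  have h2 := hD.valid.cnt_le hG g
  by_contra hne
  have hg2 : cnt G D g = 2 := by omega
  have hk2 : cnt G D k = 2 := by
    rcases ht.2.2.2 with h | ⟨z, -, -, hz, hH⟩
    · exact absurd h hkb
    · exact hH.cnt_eq hG hz
  have hm := swap_min hG hC hD hs ht
  have hlt : hc G (insert s (D.erase v)) < hc G D := by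
    unfold hc
    have hsub : (Finset.univ.filter fun l => cnt G (insert s (D.erase v)) l = 2) ⊆
        insert b (((Finset.univ.filter fun l => cnt G D l = 2).erase k).erase g) := by
      intro l hl
      simp only [Finset.mem_filter, Finset.mem_univ, true_and] at hl
      rw [Finset.mem_insert, Finset.mem_erase, Finset.mem_erase]
      rcases heavy_swap hG hD.valid hs ht hl with h | h
      · right
        refine ⟨?_, ?_, by simpa using h.1⟩
        · rintro rfl; exact h.2 hg
        · rintro rfl; exact h.2 ht.2.2.1
      · left; exact h.1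
    have e1 := Finset.card_le_card hsub
    have e2 := Finset.card_insert_le b (((Finset.univ.filter fun l => cnt G D l = 2).erase k).erase g)
    have hk' : k ∈ (Finset.univ.filter fun l => cnt G D l = 2) := by simpa using hk2
    have hg' : g ∈ (Finset.univ.filter fun l => cnt G D l = 2).erase k := by
      rw [Finset.mem_erase]
      exact ⟨hgk, by simpa using hg2⟩
    rw [Finset.card_erase_of_mem hg', Finset.card_erase_of_mem hk'] at e2
    have e3 : 2 ≤ (Finset.univ.filter fun l => cnt G D l = 2).card := by
      have := Finset.card_pos.mpr ⟨g, hg'⟩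
      rw [Finset.card_erase_of_mem hk'] at this
      omega
    omega
  omega

end Pool.Agent.OC4
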